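import Pool.Agent.H757.TB3.HM

/-!
# The Hirasawa–Murasugi inequality for closures of alternating 3-braids

Oriented link diagrams (`OWord`), the Conway polynomial (`IsConway`), the Alexander polynomial
(`IsAlexander`, a Laurent polynomial in `s = t^{1/2}`) and the signature (`IsSignature`, the
signature of `V + Vᵀ` for the surface which Seifert's algorithm makes of the diagram) are those of
the library of earlier results.
-/

namespace Pool.Agent.Results.MP_29c64e_gt.AlternatingThreeBraids

open Pool.Agent.Helper454.Wh
open Pool.Agent.Helper82_Alt
open Q174.TBD
open Pool.Agent.H757.TB3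

/-- `K` is the closed braid diagram of an alternating 3-braid in which both generators occur: of a
word in `σ₁, σ₂⁻¹` (`ε = false`) or in `σ₁⁻¹, σ₂` (`ε = true`) which contains both letters. -/
def IsClosedAlternatingThreeBraidDiagram (K : OWord) : Prop :=
  ∃ (ε : Bool) (w : List Bool), true ∈ w ∧ false ∈ w ∧ K = closure (altWord ε w)

/-- The Conway polynomial exists, and for every closure of an alternating 3-braid (with both
generators) the flat part in the middle of the coefficients of the Alexander polynomial is at most
as long as the signature allows: for a knot, the stable length is at most half of the absolute value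
of the signature. -/
theorem result : (∃ Λ : OWord → LaurentPolynomial ℤ, IsConway Λ) ∧
    ∀ Λ : OWord → LaurentPolynomial ℤ, IsConway Λ →
      ∀ K : OWord, IsClosedAlternatingThreeBraidDiagram K →
        ∃ (Δ : LaurentPolynomial ℤ) (σ : ℤ), IsAlexander Λ K Δ ∧ IsSignature K σ ∧
          StableLe Δ σ := by
  refine ⟨exists_conway, fun Λ hΛ K hK => ?_⟩
  obtain ⟨ε, w, hA, hB, rfl⟩ := hK
  obtain ⟨Δ, h1, h2⟩ := hm_closure hΛ ε hA hB
  exact ⟨Δ, _, h1, signature_closure ε hA hB, h2⟩

end Pool.Agent.Results.MP_29c64e_gt.AlternatingThreeBraids
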